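import Pool.Agent.H88.YT.Defs

/-!
# Toric surfaces with group actions: definitions
-/

set_option autoImplicit false

namespace Pool.Agent.H88.YU

open Pool.Agent.H88.YT Filter Asymptotics

variable {n : ℕ}

/-- The points of `K` whose coordinates are integral multiples of `1 / k`. -/
def S (K : Set (Fin n → ℝ)) (k : ℕ) : Set (Fin n → ℝ) := {x | x ∈ K ∧ ∀ i, ∃ m : ℤ, k * x i = m}

/-- The sum of the values of `f` at the points of `K` whose coordinates are integral multiples of
`1 / k`. -/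
noncomputable def lat (K : Set (Fin n → ℝ)) (f : (Fin n → ℝ) → ℝ) (k : ℕ) : ℝ :=
  ∑ᶠ x ∈ S K k, f x

/-- `f` is the maximum of finitely many affine functions with rational coefficients. -/
def IsPL (f : (Fin n → ℝ) → ℝ) : Prop :=
  ∃ (r : ℕ) (a : Fin (r + 1) → Fin n → ℚ) (b : Fin (r + 1) → ℚ),
    ∀ x, f x = Finset.univ.sup' Finset.univ_nonempty fun i => ∑ j, (a i j : ℝ) * x j + b i

/-- `f` is affine on `K`. -/
def AffineOn (K : Set (Fin n → ℝ)) (f : (Fin n → ℝ) → ℝ) : Prop :=
  ∃ (a : Fin n → ℝ) (b : ℝ), ∀ x ∈ K, f x = ∑ j, a j * x j + b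

/-- `f` is constant on `K`. -/
def ConstOn (K : Set (Fin n → ℝ)) (f : (Fin n → ℝ) → ℝ) : Prop := ∃ c, ∀ x ∈ K, f x = c

/-- A convex polytope with integral vertices. -/
def IsLatticePolytope (K : Set (Fin n → ℝ)) : Prop :=
  ∃ v : Finset (Fin n → ℤ), K = convexHull ℝ ((fun w i => (w i : ℝ)) '' (v : Set (Fin n → ℤ)))

/-- An affine automorphism of `K`, defined over the integers. -/
def IsAut (K : Set (Fin n → ℝ)) (τ : Equiv.Perm (Fin n → ℝ)) : Prop :=
  (∃ (A : Matrix (Fin n) (Fin n) ℤ) (b : Fin n → ℤ), ∀ x i, τ x i = ∑ j, A i j * x j + b i) ∧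
    ∀ x, τ x ∈ K ↔ x ∈ K

/-- The Donaldson-Futaki invariant of the toric test configuration of `f` is positive: if
`∑ 1 = k^n (a₀ + a₁/k) + O(k^{n-2})` and `∑ f = k^n (β₀ + β₁/k) + O(k^{n-2})`, the sums over the
points of `K` whose coordinates are integral multiples of `1 / k`, then `a₀ β₁ - a₁ β₀ > 0`. (Here
`a₀` and `β₀` are the integrals of `1` and `f` over `K`, and `2 a₁` and `2 β₁` those over the
boundary.) -/
def Pos (K : Set (Fin n → ℝ)) (f : (Fin n → ℝ) → ℝ) : Prop :=
  ∀ a₀ a₁ β₀ β₁ : ℝ, Exp2 (lat K fun _ => 1) n a₀ a₁ → Exp2 (lat K f) n β₀ β₁ →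
    0 < a₀ * β₁ - a₁ * β₀

/-- The Donaldson-Futaki invariant of the toric test configuration of `f` is zero. -/
def Zero (K : Set (Fin n → ℝ)) (f : (Fin n → ℝ) → ℝ) : Prop :=
  ∀ a₀ a₁ β₀ β₁ : ℝ, Exp2 (lat K fun _ => 1) n a₀ a₁ → Exp2 (lat K f) n β₀ β₁ →
    a₀ * β₁ - a₁ * β₀ = 0

/-- K-polystability of a polytope (Donaldson). -/
def PolyStable (K : Set (Fin n → ℝ)) : Prop :=
  (∀ f, IsPL f → ¬ AffineOn K f → Pos K f) ∧ ∀ f, IsPL f → AffineOn K f → Zero K f

/-- Polarized manifolds with group actions and test configurations, and toric surfaces. -/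
structure ToricTheory extends Theory where
  /-- `X` is a polarized toric surface with the moment polytope `K`, and the action of `Γ` normalizes
  the torus; the induced action on `K` is `φ` -/
  Toric : {Γ : Type} → [Group Γ] → {X : Pol} → Act Γ X → Set (Fin 2 → ℝ) →
    (Γ →* Equiv.Perm (Fin 2 → ℝ)) → Prop

/-- Known facts about toric surfaces.

* `polytope`: `K` is a lattice polytope with interior points, on which `Γ` acts by affine
  automorphisms defined over the integers;
* `fields`: an invariant affine function on `K` which is not constant defines a one-parameter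
  subgroup of the torus which commutes with `Γ`, and so an invariant vector field;
* `testConf`: an invariant rational piecewise linear convex function on `K` which is not constant
  defines an equivariant test configuration with positive norm, with Futaki invariant
  `c (a₀ β₁ - a₁ β₀)` for a `c > 0` (Donaldson);
* `donaldson`: Donaldson's theorem that the K-polystability of the polytope of a toric surface
  implies the existence of a cscK metric. -/
structure ToricFacts (T : ToricTheory) : Prop extends Facts T.toTheory where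
  polytope : ∀ {Γ : Type} [Group Γ] {X : T.Pol} {a : T.Act Γ X} {K : Set (Fin 2 → ℝ)}
    {φ : Γ →* Equiv.Perm (Fin 2 → ℝ)}, T.Toric a K φ →
    IsLatticePolytope K ∧ (interior K).Nonempty ∧ ∀ g, IsAut K (φ g)
  fields : ∀ {Γ : Type} [Group Γ] {X : T.Pol} {a : T.Act Γ X} {K : Set (Fin 2 → ℝ)}
    {φ : Γ →* Equiv.Perm (Fin 2 → ℝ)}, T.Toric a K φ → T.NoFields a →
    ∀ f, AffineOn K f → (∀ g, ∀ x ∈ K, f (φ g x) = f x) → ConstOn K f
  testConf : ∀ {Γ : Type} [Group Γ] [Finite Γ] {X : T.Pol} {a : T.Act Γ X}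
    {K : Set (Fin 2 → ℝ)} {φ : Γ →* Equiv.Perm (Fin 2 → ℝ)}, T.Toric a K φ →
    ∀ f, IsPL f → (∀ g, ∀ x ∈ K, f (φ g x) = f x) → ¬ ConstOn K f →
    ∀ a₀ a₁ β₀ β₁ : ℝ, Exp2 (lat K fun _ => 1) 2 a₀ a₁ → Exp2 (lat K f) 2 β₀ β₁ →
      ∃ (χ : T.TC X) (α₀ α₁ b₀ b₁ c₀ c : ℝ), T.Equi a χ ∧ Numbers χ α₀ α₁ b₀ b₁ c₀ ∧
        0 < normSq (T.r χ) (T.dim X) α₀ b₀ c₀ ∧ 0 < c ∧
        fut α₀ α₁ b₀ b₁ = c * (a₀ * β₁ - a₁ * β₀)
  donaldson : ∀ {Γ : Type} [Group Γ] {X : T.Pol} {a : T.Act Γ X} {K : Set (Fin 2 → ℝ)}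
    {φ : Γ →* Equiv.Perm (Fin 2 → ℝ)}, T.Toric a K φ → PolyStable K → T.Csck (T.one X)

/-- The smallest class of actions of `Γ` which contains the actions on the manifolds with
`c_1(M) = λ c_1(L)`, the free actions for whose quotient Q1 holds and the actions on polarized toric
surfaces which normalize the torus, and which is closed under products. -/
inductive Built (T : ToricTheory) (Γ : Type) [Group Γ] : {X : T.Pol} → T.Act Γ X → Prop
  | einstein {X : T.Pol} (a : T.Act Γ X) : T.Einstein X → Built T Γ a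
  | free {X : T.Pol} (a : T.Act Γ X) (Y : T.Pol) : T.Quot a Y → Q1 T.toTheory Y → Built T Γ a
  | toric {X : T.Pol} (a : T.Act Γ X) (K : Set (Fin 2 → ℝ))
      (φ : Γ →* Equiv.Perm (Fin 2 → ℝ)) : T.Toric a K φ → Built T Γ a
  | prod {X Y : T.Pol} (a : T.Act Γ X) (b : T.Act Γ Y) : Built T Γ a → Built T Γ b →
    Built T Γ (T.prodAct a b)

end Pool.Agent.H88.YU
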