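import Pool.Agent.H88.YU.Poly
import Pool.Agent.H88.YT.Main

/-!
# Equivariant K-stability of polytopes and toric surfaces
-/

set_option autoImplicit false

namespace Pool.Agent.H88.YU

open Pool.Agent.H88.YT Filter Asymptotics

theorem exp2_mul {f g : ℕ → ℝ} {d : ℕ} {x₀ x₁ : ℝ} (c : ℝ) (h : Exp2 f d x₀ x₁)
    (hg : ∀ k, 0 < k → g k = c * f k) : Exp2 g d (c * x₀) (c * x₁) := by
  unfold Exp2 at *
  refine (h.const_mul_left c).congr' ?_ EventuallyEq.rfl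
  filter_upwards [eventually_gt_atTop 0] with k hk
  rw [hg k hk]
  ring

theorem exp2_unique {f : ℕ → ℝ} {d : ℕ} {x₀ x₁ y₀ y₁ : ℝ} (h : Exp2 f d x₀ x₁)
    (h' : Exp2 f d y₀ y₁) : x₀ = y₀ ∧ x₁ = y₁ := by
  have h1 := h'.sub h
  obtain ⟨C, hC⟩ := h1.bound
  obtain ⟨N, hN⟩ := eventually_atTop.1 hC
  set u := x₀ - y₀ with hu
  set v := x₁ - y₁ with hv
  have key : ∀ k : ℕ, N ≤ k → 0 < k → |u * k ^ 2 + v * k| ≤ C := by
    intro k hk hk0
    have hk1 : (0 : ℝ) < k := by exact_mod_cast hk0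
    have h2 := hN k hk
    have h3 : f k - (k : ℝ) ^ d * (y₀ + y₁ / k) - (f k - (k : ℝ) ^ d * (x₀ + x₁ / k)) =
        (k : ℝ) ^ ((d : ℤ) - 2) * (u * k ^ 2 + v * k) := by
      rw [zpow_sub₀ hk1.ne', zpow_natCast]
      have h4 : ((k : ℝ) ^ (2 : ℤ)) = (k : ℝ) ^ 2 := by norm_cast
      rw [h4]
      field_simp
      ring
    rw [h3, norm_mul, mul_comm C, Real.norm_eq_abs, Real.norm_eq_abs] at h2
    have h5 : 0 < |(k : ℝ) ^ ((d : ℤ) - 2)| := abs_pos.2 (zpow_pos hk1 _).ne'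
    exact le_of_mul_le_mul_left h2 h5
  have hu0 : u = 0 := by
    by_contra hne
    obtain ⟨k, hk⟩ := exists_nat_gt (max (N : ℝ) (3 * C / (2 * |u|)))
    have hk1 : (N : ℝ) < k := (le_max_left _ _).trans_lt hk
    have hk2 : 3 * C / (2 * |u|) < k := (le_max_right _ _).trans_lt hk
    have hk3 : N < k := by exact_mod_cast hk1
    have hk0 : 0 < k := by omega
    have hkR : (1 : ℝ) ≤ k := by exact_mod_cast hk0
    have e1 := key k hk3.le hk0
    have e2 := key (2 * k) (by omega) (by omega)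
    push_cast at e2
    have e3 : |2 * u * k ^ 2| ≤ 3 * C := by
      have e4 : 2 * u * (k : ℝ) ^ 2 = (u * (2 * k) ^ 2 + v * (2 * k)) - 2 * (u * k ^ 2 + v * k) := by
        ring
      rw [e4]
      calc |(u * (2 * k) ^ 2 + v * (2 * k)) - 2 * (u * k ^ 2 + v * k)| ≤
          |u * (2 * k) ^ 2 + v * (2 * k)| + |2 * (u * k ^ 2 + v * k)| := abs_sub _ _
        _ ≤ C + 2 * C := by
            rw [abs_mul, abs_of_pos (by norm_num : (0 : ℝ) < 2)]
            linarith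
        _ = 3 * C := by ring
    rw [abs_mul, abs_mul, abs_of_pos (by norm_num : (0 : ℝ) < 2), abs_of_nonneg (by positivity :
      (0 : ℝ) ≤ (k : ℝ) ^ 2)] at e3
    have hpos : 0 < 2 * |u| := by positivity
    rw [div_lt_iff₀ hpos] at hk2
    have h6 : (k : ℝ) ≤ (k : ℝ) ^ 2 := by nlinarith
    nlinarith [mul_le_mul_of_nonneg_left h6 hpos.le]
  have hv0 : v = 0 := by
    by_contra hne
    obtain ⟨k, hk⟩ := exists_nat_gt (max (N : ℝ) (C / |v|))
    have hk1 : (N : ℝ) < k := (le_max_left _ _).trans_lt hk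
    have hk2 : C / |v| < k := (le_max_right _ _).trans_lt hk
    have hk3 : N < k := by exact_mod_cast hk1
    have hk0 : 0 < k := by omega
    have e1 := key k hk3.le hk0
    rw [hu0, zero_mul, zero_add, abs_mul, Nat.abs_cast] at e1
    have hpos : 0 < |v| := abs_pos.2 hne
    rw [div_lt_iff₀ hpos] at hk2
    nlinarith
  exact ⟨by linarith, by linarith⟩

variable {n : ℕ} {K : Set (Fin n → ℝ)}

section group

variable {Γ : Type} [Group Γ] [Fintype Γ] {φ : Γ →* Equiv.Perm (Fin n → ℝ)}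

theorem avg_inv (f : (Fin n → ℝ) → ℝ) (h : Γ) (x : Fin n → ℝ) :
    ∑ g, f (φ g (φ h x)) = ∑ g, f (φ g x) := by
  have h1 : ∀ g, φ g (φ h x) = φ (g * h) x := fun g => by rw [map_mul]; rfl
  simp only [h1]
  exact Fintype.sum_equiv (Equiv.mulRight h) _ _ fun g => rfl

theorem isPL_avg (hφ : ∀ g, IsAut K (φ g)) {f : (Fin n → ℝ) → ℝ} (hf : IsPL f) :
    IsPL fun x => ∑ g, f (φ g x) :=
  isPL_sum Finset.univ (fun g x => f (φ g x)) fun g _ => hf.comp (hφ g)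

theorem exp_avg (hK : IsLatticePolytope K) (hφ : ∀ g, IsAut K (φ g)) {f : (Fin n → ℝ) → ℝ}
    {β₀ β₁ : ℝ} (h : Exp2 (lat K f) n β₀ β₁) :
    Exp2 (lat K fun x => ∑ g, f (φ g x)) n (Fintype.card Γ * β₀) (Fintype.card Γ * β₁) :=
  exp2_mul _ h fun _ hk => lat_sum hK hφ f hk

theorem pos_of_avg (hK : IsLatticePolytope K) (hφ : ∀ g, IsAut K (φ g)) {f : (Fin n → ℝ) → ℝ}
    (h : Pos K fun x => ∑ g, f (φ g x)) : Pos K f := by
  intro a₀ a₁ β₀ β₁ ha hb
  have h1 := h a₀ a₁ _ _ ha (exp_avg hK hφ hb)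
  have h2 : a₀ * (Fintype.card Γ * β₁) - a₁ * (Fintype.card Γ * β₀) =
      Fintype.card Γ * (a₀ * β₁ - a₁ * β₀) := by ring
  rw [h2] at h1
  exact pos_of_mul_pos_right h1 (Nat.cast_nonneg _)

theorem zero_of_avg (hK : IsLatticePolytope K) (hφ : ∀ g, IsAut K (φ g)) {f : (Fin n → ℝ) → ℝ}
    (h : Zero K fun x => ∑ g, f (φ g x)) : Zero K f := by
  intro a₀ a₁ β₀ β₁ ha hb
  have h1 := h a₀ a₁ _ _ ha (exp_avg hK hφ hb)
  have h2 : a₀ * (Fintype.card Γ * β₁) - a₁ * (Fintype.card Γ * β₀) =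
      Fintype.card Γ * (a₀ * β₁ - a₁ * β₀) := by ring
  rw [h2] at h1
  exact (mul_eq_zero.1 h1).resolve_left (Nat.cast_ne_zero.2 Fintype.card_ne_zero)

theorem affineOn_comp {τ : Equiv.Perm (Fin n → ℝ)} (hτ : IsAut K τ) {f : (Fin n → ℝ) → ℝ}
    (h : AffineOn K f) : AffineOn K fun x => f (τ x) := by
  obtain ⟨a, b, h⟩ := h
  obtain ⟨⟨A, c, hA⟩, hK⟩ := hτ
  refine ⟨fun l => ∑ j, a j * A j l, ∑ j, a j * c j + b, fun x hx => ?_⟩
  show f (τ x) = _
  rw [h _ ((hK x).2 hx)]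
  simp only [hA, mul_add, Finset.sum_add_distrib, Finset.mul_sum, Finset.sum_mul]
  rw [Finset.sum_comm, add_assoc]
  congr 1
  refine Finset.sum_congr rfl fun l _ => Finset.sum_congr rfl fun j _ => ?_
  ring

theorem affineOn_avg (hφ : ∀ g, IsAut K (φ g)) {f : (Fin n → ℝ) → ℝ} (h : AffineOn K f) :
    AffineOn K fun x => ∑ g, f (φ g x) := by
  choose a b hab using fun g => affineOn_comp (hφ g) h
  refine ⟨fun j => ∑ g, a g j, ∑ g, b g, fun x hx => ?_⟩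
  show ∑ g, f (φ g x) = _
  rw [Finset.sum_congr rfl fun g _ => hab g x hx, Finset.sum_add_distrib, Finset.sum_comm]
  simp only [Finset.sum_mul]

/-- **Equivariant K-polystability of a polytope implies K-polystability.** -/
theorem polyStable_iff (hK : IsLatticePolytope K) (hi : (interior K).Nonempty)
    (hφ : ∀ g, IsAut K (φ g)) : PolyStable K ↔
      (∀ f, IsPL f → (∀ g, ∀ x ∈ K, f (φ g x) = f x) → ¬ AffineOn K f → Pos K f) ∧
        ∀ f, IsPL f → (∀ g, ∀ x ∈ K, f (φ g x) = f x) → AffineOn K f → Zero K f := by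
  constructor
  · rintro ⟨h1, h2⟩
    exact ⟨fun f hf _ ha => h1 f hf ha, fun f hf _ ha => h2 f hf ha⟩
  · rintro ⟨h1, h2⟩
    refine ⟨fun f hf ha => pos_of_avg hK hφ (h1 _ (isPL_avg hφ hf)
      (fun h x _ => avg_inv f h x) fun hc => ha (affineOn_of_sum hi hφ hf hc)), fun f hf ha =>
      zero_of_avg hK hφ (h2 _ (isPL_avg hφ hf) (fun h x _ => avg_inv f h x)
        (affineOn_avg hφ ha))⟩

/-- Constant functions have Futaki invariant zero. -/
theorem zero_of_const {f : (Fin n → ℝ) → ℝ} (h : ConstOn K f) : Zero K f := by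
  obtain ⟨c, hc⟩ := h
  intro a₀ a₁ β₀ β₁ ha hb
  have h1 : Exp2 (lat K f) n (c * a₀) (c * a₁) := exp2_mul c ha fun k _ => by
    rw [← lat_mul]
    exact lat_congr (fun x hx => by rw [hc x hx, mul_one]) k
  obtain ⟨e1, e2⟩ := exp2_unique hb h1
  rw [e1, e2]
  ring

theorem ConstOn.affineOn {f : (Fin n → ℝ) → ℝ} (h : ConstOn K f) : AffineOn K f := by
  obtain ⟨c, hc⟩ := h
  exact ⟨0, c, fun x hx => by simp [hc x hx]⟩

end group

variable {T : ToricTheory}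

/-- **Toric surfaces.** -/
theorem eq1_toric (hT : ToricFacts T) {Γ : Type} [Group Γ] [Finite Γ] {X : T.Pol}
    (a : T.Act Γ X) {K : Set (Fin 2 → ℝ)} {φ : Γ →* Equiv.Perm (Fin 2 → ℝ)}
    (h : T.Toric a K φ) : EQ1 a := by
  intro hf
  refine ⟨hT.stable _ hf, fun hs => ?_⟩
  obtain ⟨hK, hi, hφ⟩ := hT.polytope h
  have := Fintype.ofFinite Γ
  rw [hT.unique a]
  refine hT.donaldson h ((polyStable_iff hK hi hφ).2 ⟨fun f hPL hinv ha => ?_,
    fun f _ hinv ha => zero_of_const (hT.fields h hf f ha hinv)⟩)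
  intro a₀ a₁ β₀ β₁ h1 h2
  obtain ⟨χ, α₀, α₁, b₀, b₁, c₀, c, hE, hN, hn, hc, he⟩ := hT.testConf h f hPL hinv
    (fun hc => ha hc.affineOn) a₀ a₁ β₀ β₁ h1 h2
  have h3 := hs χ hE _ _ _ _ _ hN hn
  rw [he] at h3
  exact pos_of_mul_pos_right h3 hc.le

theorem eq1_built (hT : ToricFacts T) {Γ : Type} [Group Γ] [Finite Γ] {X : T.Pol}
    (a : T.Act Γ X) (h : Built T Γ a) : EQ1 a := by
  induction h with
  | einstein a h => exact hT.einstein a h
  | free a Y h hY => exact (q1_quot hT.toFacts a h).1 hY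
  | toric a K φ h => exact eq1_toric hT a h
  | prod a b _ _ ih1 ih2 => exact eq1_prod hT.toFacts a b ih1 ih2

end Pool.Agent.H88.YU
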