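import Pool.Agent.H88.YU.Defs

/-!
# Averaging convex functions on lattice polytopes
-/

set_option autoImplicit false

namespace Pool.Agent.H88.YU

open Pool.Agent.H88.YT Filter Asymptotics

variable {n : ℕ} {K : Set (Fin n → ℝ)}

theorem S_finite (hK : IsLatticePolytope K) {k : ℕ} (hk : 0 < k) : (S K k).Finite := by
  obtain ⟨v, hv⟩ := hK
  have hb : Bornology.IsBounded K := by
    rw [hv]
    exact ((v.finite_toSet.image _).isCompact_convexHull ℝ).isBounded
  obtain ⟨R, hR⟩ := hb.subset_closedBall 0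
  have hk0 : (0 : ℝ) < k := by exact_mod_cast hk
  have hfin : (Set.univ.pi fun _ : Fin n => Set.Icc (-⌈(k : ℝ) * R⌉) ⌈(k : ℝ) * R⌉).Finite :=
    Set.Finite.pi fun _ => Set.finite_Icc _ _
  refine (hfin.image fun m i => (m i : ℝ) / k).subset ?_
  rintro x ⟨hx, hm⟩
  choose m hm using hm
  refine ⟨m, fun i _ => ?_, funext fun i => ?_⟩
  · have h1 : ‖x i‖ ≤ R := (norm_le_pi_norm x i).trans (by simpa using hR hx)
    rw [Real.norm_eq_abs, abs_le] at h1
    have h2 : (m i : ℝ) ≤ k * R := by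
      rw [← hm i]
      exact mul_le_mul_of_nonneg_left h1.2 hk0.le
    have h3 : -(k * R) ≤ (m i : ℝ) := by
      rw [← hm i]
      nlinarith [mul_le_mul_of_nonneg_left h1.1 hk0.le]
    constructor
    · have h4 : (-(⌈(k : ℝ) * R⌉ : ℤ) : ℝ) ≤ m i := by
        have h5 := Int.le_ceil ((k : ℝ) * R)
        linarith
      exact_mod_cast h4
    · have h4 : (m i : ℝ) ≤ (⌈(k : ℝ) * R⌉ : ℤ) := h2.trans (Int.le_ceil _)
      exact_mod_cast h4
  · show (m i : ℝ) / k = x i
    rw [← hm i]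
    field_simp

theorem lat_comp {τ : Equiv.Perm (Fin n → ℝ)} (h1 : IsAut K τ) (h2 : IsAut K τ⁻¹)
    (f : (Fin n → ℝ) → ℝ) (k : ℕ) : lat K (fun x => f (τ x)) k = lat K f k := by
  have hmap : ∀ σ : Equiv.Perm (Fin n → ℝ), IsAut K σ → ∀ x ∈ S K k, σ x ∈ S K k := by
    rintro σ ⟨⟨A, b, hA⟩, hK⟩ x ⟨hx, hm⟩
    refine ⟨(hK x).2 hx, fun i => ?_⟩
    choose m hm using hm
    refine ⟨∑ j, A i j * m j + k * b i, ?_⟩
    rw [hA]
    push_cast
    rw [mul_add, Finset.mul_sum]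
    congr 1
    refine Finset.sum_congr rfl fun j _ => ?_
    rw [← hm j]
    ring
  unfold lat
  refine finsum_mem_eq_of_bijOn τ ⟨fun x hx => hmap τ h1 x hx, τ.injective.injOn, fun y hy => ?_⟩
    fun _ _ => rfl
  exact ⟨τ⁻¹ y, hmap _ h2 y hy, by simp⟩

theorem lat_congr {f g : (Fin n → ℝ) → ℝ} (h : ∀ x ∈ K, f x = g x) (k : ℕ) :
    lat K f k = lat K g k := finsum_mem_congr rfl fun x hx => h x hx.1

theorem lat_mul (c : ℝ) (f : (Fin n → ℝ) → ℝ) (k : ℕ) :
    lat K (fun x => c * f x) k = c * lat K f k := (mul_finsum_mem _ _).symm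

/-- The sum over the group. -/
theorem lat_sum {Γ : Type} [Group Γ] [Fintype Γ] {φ : Γ →* Equiv.Perm (Fin n → ℝ)}
    (hK : IsLatticePolytope K) (hφ : ∀ g, IsAut K (φ g)) (f : (Fin n → ℝ) → ℝ) {k : ℕ}
    (hk : 0 < k) : lat K (fun x => ∑ g, f (φ g x)) k = Fintype.card Γ * lat K f k := by
  have h1 : ∀ g : Γ, lat K (fun x => f (φ g x)) k = lat K f k := fun g =>
    lat_comp (hφ g) (by rw [← map_inv]; exact hφ g⁻¹) f k
  have hfin := S_finite hK hk
  have h2 : ∀ F : (Fin n → ℝ) → ℝ, lat K F k = ∑ x ∈ hfin.toFinset, F x := fun F =>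
    finsum_mem_eq_finite_toFinset_sum F hfin
  rw [h2, Finset.sum_comm]
  have h3 : ∀ g ∈ Finset.univ, ∑ x ∈ hfin.toFinset, f (φ g x) = lat K f k := fun g _ => by
    rw [← h1 g, h2]
  rw [Finset.sum_congr rfl h3, Finset.sum_const, Finset.card_univ, nsmul_eq_mul]

/-- Maxima of affine functions, indexed by any finite set. -/
theorem isPL_of {ι : Type} [Fintype ι] [Nonempty ι] (a : ι → Fin n → ℚ) (b : ι → ℚ)
    {f : (Fin n → ℝ) → ℝ} (h : ∀ x, f x = Finset.univ.sup' Finset.univ_nonempty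
      fun i => ∑ j, (a i j : ℝ) * x j + b i) : IsPL f := by
  obtain ⟨r, hr⟩ : ∃ r, Fintype.card ι = r + 1 :=
    ⟨Fintype.card ι - 1, (Nat.succ_pred_eq_of_pos Fintype.card_pos).symm⟩
  let e : ι ≃ Fin (r + 1) := (Fintype.equivFin ι).trans (finCongr hr)
  refine ⟨r, fun i => a (e.symm i), fun i => b (e.symm i), fun x => ?_⟩
  rw [h]
  apply le_antisymm
  · refine Finset.sup'_le _ _ fun i _ => ?_
    have h1 := Finset.le_sup' (fun i : Fin (r + 1) => ∑ j, (a (e.symm i) j : ℝ) * x j +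
      b (e.symm i)) (Finset.mem_univ (e i))
    simp only [Equiv.symm_apply_apply] at h1
    exact h1
  · refine Finset.sup'_le _ _ fun i _ => ?_
    exact Finset.le_sup' (fun i : ι => ∑ j, (a i j : ℝ) * x j + b i) (Finset.mem_univ (e.symm i))

theorem IsPL.add {f g : (Fin n → ℝ) → ℝ} (hf : IsPL f) (hg : IsPL g) :
    IsPL fun x => f x + g x := by
  obtain ⟨r, a, b, h⟩ := hf
  obtain ⟨r', a', b', h'⟩ := hg
  refine isPL_of (ι := Fin (r + 1) × Fin (r' + 1)) (fun p j => a p.1 j + a' p.2 j)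
    (fun p => b p.1 + b' p.2) fun x => ?_
  have hs : ∀ p : Fin (r + 1) × Fin (r' + 1), ∑ j, ((a p.1 j + a' p.2 j : ℚ) : ℝ) * x j +
      ((b p.1 + b' p.2 : ℚ) : ℝ) = (∑ j, (a p.1 j : ℝ) * x j + b p.1) +
        (∑ j, (a' p.2 j : ℝ) * x j + b' p.2) := by
    intro p
    push_cast
    simp only [add_mul, Finset.sum_add_distrib]
    ring
  simp only [hs]
  apply le_antisymm
  · obtain ⟨i, -, hi⟩ := Finset.exists_mem_eq_sup' (Finset.univ_nonempty (α := Fin (r + 1)))
      fun i => ∑ j, (a i j : ℝ) * x j + b i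
    obtain ⟨i', -, hi'⟩ := Finset.exists_mem_eq_sup' (Finset.univ_nonempty (α := Fin (r' + 1)))
      fun i => ∑ j, (a' i j : ℝ) * x j + b' i
    rw [h, h', hi, hi']
    exact Finset.le_sup' (fun p : Fin (r + 1) × Fin (r' + 1) => (∑ j, (a p.1 j : ℝ) * x j + b p.1) +
        (∑ j, (a' p.2 j : ℝ) * x j + b' p.2)) (Finset.mem_univ (i, i'))
  · refine Finset.sup'_le _ _ fun p _ => ?_
    rw [h, h']
    exact add_le_add (Finset.le_sup' (fun i => ∑ j, (a i j : ℝ) * x j + b i) (Finset.mem_univ p.1))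
      (Finset.le_sup' (fun i => ∑ j, (a' i j : ℝ) * x j + b' i) (Finset.mem_univ p.2))

theorem isPL_zero : IsPL fun _ : Fin n → ℝ => 0 :=
  isPL_of (ι := Unit) (fun _ _ => 0) (fun _ => 0) fun x => by simp

theorem isPL_sum {ι : Type} (s : Finset ι) (f : ι → (Fin n → ℝ) → ℝ) (h : ∀ i ∈ s, IsPL (f i)) :
    IsPL fun x => ∑ i ∈ s, f i x := by
  classical
  induction s using Finset.induction_on with
  | empty => simpa using isPL_zero
  | insert a s ha ih =>
    simp only [Finset.sum_insert ha]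
    exact (h a (Finset.mem_insert_self a s)).add
      (ih fun i hi => h i (Finset.mem_insert_of_mem hi))

theorem IsPL.comp {f : (Fin n → ℝ) → ℝ} (hf : IsPL f) {τ : Equiv.Perm (Fin n → ℝ)}
    (hτ : IsAut K τ) : IsPL fun x => f (τ x) := by
  obtain ⟨r, a, b, h⟩ := hf
  obtain ⟨⟨A, c, hA⟩, -⟩ := hτ
  refine ⟨r, fun i l => ∑ j, a i j * (A j l : ℚ), fun i => ∑ j, a i j * (c j : ℚ) + b i,
    fun x => ?_⟩
  show f (τ x) = _
  rw [h (τ x)]
  have hs : ∀ i, ∑ j, (a i j : ℝ) * τ x j + b i = ∑ l, ((∑ j, a i j * (A j l : ℚ) : ℚ) : ℝ) * x l +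
      ((∑ j, a i j * (c j : ℚ) + b i : ℚ) : ℝ) := by
    intro i
    push_cast
    simp only [hA, mul_add, Finset.sum_add_distrib, Finset.mul_sum, Finset.sum_mul]
    rw [Finset.sum_comm, add_assoc]
    congr 1
    refine Finset.sum_congr rfl fun l _ => Finset.sum_congr rfl fun j _ => ?_
    ring
  simp only [hs]

theorem IsPL.convex {f : (Fin n → ℝ) → ℝ} (hf : IsPL f) (x y : Fin n → ℝ) {s t : ℝ} (hs : 0 ≤ s)
    (ht : 0 ≤ t) (hst : s + t = 1) : f (s • x + t • y) ≤ s * f x + t * f y := by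
  obtain ⟨r, a, b, h⟩ := hf
  rw [h (s • x + t • y)]
  refine Finset.sup'_le _ _ fun i _ => ?_
  have h1 : ∑ j, (a i j : ℝ) * (s • x + t • y) j + b i =
      s * (∑ j, (a i j : ℝ) * x j + b i) + t * (∑ j, (a i j : ℝ) * y j + b i) := by
    have h2 : (b i : ℝ) = s * b i + t * b i := by rw [← add_mul, hst, one_mul]
    rw [mul_add, mul_add, Finset.mul_sum, Finset.mul_sum]
    have h3 : ∑ j, (a i j : ℝ) * (s • x + t • y) j =
        ∑ j, s * ((a i j : ℝ) * x j) + ∑ j, t * ((a i j : ℝ) * y j) := by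
      rw [← Finset.sum_add_distrib]
      refine Finset.sum_congr rfl fun j _ => ?_
      simp only [Pi.add_apply, Pi.smul_apply, smul_eq_mul]
      ring
    rw [h3]
    nth_rewrite 1 [h2]
    ring
  rw [h1, h x, h y]
  exact add_le_add (mul_le_mul_of_nonneg_left
    (Finset.le_sup' (fun i => ∑ j, (a i j : ℝ) * x j + b i) (Finset.mem_univ i)) hs)
    (mul_le_mul_of_nonneg_left
    (Finset.le_sup' (fun i => ∑ j, (a i j : ℝ) * y j + b i) (Finset.mem_univ i)) ht)

/-- If the average of a convex function is affine, the function is affine. -/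
theorem affineOn_of_sum {Γ : Type} [Group Γ] [Fintype Γ] {φ : Γ →* Equiv.Perm (Fin n → ℝ)}
    (hi : (interior K).Nonempty) (hφ : ∀ g, IsAut K (φ g)) {f : (Fin n → ℝ) → ℝ} (hf : IsPL f)
    (h : AffineOn K fun x => ∑ g, f (φ g x)) : AffineOn K f := by
  obtain ⟨x₀, hx₀⟩ := hi
  obtain ⟨r, a, b, hr⟩ := hf
  have hf : IsPL f := ⟨r, a, b, hr⟩
  obtain ⟨i, -, hi⟩ := Finset.exists_mem_eq_sup' (Finset.univ_nonempty (α := Fin (r + 1)))
    fun i => ∑ j, (a i j : ℝ) * x₀ j + b i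
  have hx₀' : f x₀ = ∑ j, (a i j : ℝ) * x₀ j + b i := by rw [hr, hi]
  refine ⟨fun j => a i j, b i, fun y hy => ?_⟩
  -- extend the segment from `y` through `x₀`
  obtain ⟨ε, hε, hb⟩ : ∃ ε : ℝ, 0 < ε ∧ x₀ + ε • (x₀ - y) ∈ K := by
    have hc : Tendsto (fun ε : ℝ => x₀ + ε • (x₀ - y)) (nhdsWithin 0 (Set.Ioi 0)) (nhds x₀) := by
      have h1 : Continuous fun ε : ℝ => x₀ + ε • (x₀ - y) := by fun_prop
      have h2 := h1.tendsto 0
      rw [zero_smul, add_zero] at h2
      exact h2.mono_left nhdsWithin_le_nhds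
    have h1 := hc.eventually (mem_interior_iff_mem_nhds.1 hx₀)
    obtain ⟨ε, h2, h3⟩ := (h1.and self_mem_nhdsWithin).exists
    exact ⟨ε, h3, h2⟩
  set y' := x₀ + ε • (x₀ - y) with hy'
  set s := ε / (1 + ε) with hs
  set t := 1 / (1 + ε) with ht
  have h1ε : 0 < 1 + ε := by linarith
  have hs0 : 0 < s := by positivity
  have ht0 : 0 < t := by positivity
  have hst : s + t = 1 := by
    rw [hs, ht]
    field_simp
    ring
  have hx : x₀ = s • y + t • y' := by
    funext j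
    simp only [hy', hs, ht, Pi.add_apply, Pi.smul_apply, Pi.sub_apply, smul_eq_mul]
    field_simp
    ring
  obtain ⟨A, B, hA⟩ := h
  have hsum : ∑ g, (s * f (φ g y) + t * f (φ g y') - f (φ g x₀)) = 0 := by
    rw [Finset.sum_sub_distrib, Finset.sum_add_distrib, ← Finset.mul_sum, ← Finset.mul_sum]
    have e1 := hA y hy
    have e2 := hA y' hb
    have e3 := hA x₀ (interior_subset hx₀)
    simp only at e1 e2 e3
    rw [e1, e2, e3]
    have e4 : ∑ j, A j * x₀ j = s * ∑ j, A j * y j + t * ∑ j, A j * y' j := by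
      rw [Finset.mul_sum, Finset.mul_sum, ← Finset.sum_add_distrib]
      refine Finset.sum_congr rfl fun j _ => ?_
      have e5 := congrFun hx j
      simp only [Pi.add_apply, Pi.smul_apply, smul_eq_mul] at e5
      rw [e5]
      ring
    rw [e4]
    have e6 : B = s * B + t * B := by rw [← add_mul, hst, one_mul]
    linarith
  have hnn : ∀ g ∈ (Finset.univ : Finset Γ),
      0 ≤ s * f (φ g y) + t * f (φ g y') - f (φ g x₀) := by
    intro g _
    have h1 := (hf.comp (hφ g)).convex y y' hs0.le ht0.le hst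
    rw [← hx] at h1
    linarith
  have h1 := (Finset.sum_eq_zero_iff_of_nonneg hnn).1 hsum 1 (Finset.mem_univ _)
  rw [map_one] at h1
  simp only [Equiv.Perm.coe_one, id_eq] at h1
  have hy1 : ∑ j, (a i j : ℝ) * y j + b i ≤ f y := by
    rw [hr y]
    exact Finset.le_sup' (fun i => ∑ j, (a i j : ℝ) * y j + b i) (Finset.mem_univ i)
  have hy2 : ∑ j, (a i j : ℝ) * y' j + b i ≤ f y' := by
    rw [hr y']
    exact Finset.le_sup' (fun i => ∑ j, (a i j : ℝ) * y' j + b i) (Finset.mem_univ i)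
  have h2 : ∑ j, (a i j : ℝ) * x₀ j + b i = s * (∑ j, (a i j : ℝ) * y j + b i) +
      t * (∑ j, (a i j : ℝ) * y' j + b i) := by
    rw [mul_add, mul_add, Finset.mul_sum, Finset.mul_sum]
    have e4 : ∑ j, (a i j : ℝ) * x₀ j = ∑ j, s * ((a i j : ℝ) * y j) +
        ∑ j, t * ((a i j : ℝ) * y' j) := by
      rw [← Finset.sum_add_distrib]
      refine Finset.sum_congr rfl fun j _ => ?_
      have e5 := congrFun hx j
      simp only [Pi.add_apply, Pi.smul_apply, smul_eq_mul] at e5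
      rw [e5]
      ring
    rw [e4]
    have e6 : (b i : ℝ) = s * b i + t * b i := by rw [← add_mul, hst, one_mul]
    nth_rewrite 1 [e6]
    ring
  rw [hx₀', h2] at h1
  have h3 : s * (f y - (∑ j, (a i j : ℝ) * y j + b i)) ≤ 0 := by
    have h4 : 0 ≤ t * (f y' - (∑ j, (a i j : ℝ) * y' j + b i)) :=
      mul_nonneg ht0.le (by linarith)
    nlinarith
  have h4 : f y - (∑ j, (a i j : ℝ) * y j + b i) ≤ 0 := by
    by_contra hn
    push Not at hn
    exact absurd h3 (not_le.2 (mul_pos hs0 hn))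
  linarith

end Pool.Agent.H88.YU
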